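import Pool.Agent.Lib.MP_5c10a1_co.Fin
import Pool.Agent.Lib.MP_5c10a1_co.Num
import Pool.Agent.Lib.MP_5c10a1_co.Lin
import Pool.Agent.Lib.MP_5c10a1_co.Box
import Pool.Agent.Lib.MP_5c10a1_co.Sec
import Pool.Agent.Lib.MP_5c10a1_co.Thr
import Pool.Agent.Lib.MP_5c10a1_co.VI
import Pool.Agent.Lib.MP_5c10a1_co.V400
import Pool.Agent.Lib.MP_5c10a1_co.V310
import Pool.Agent.Lib.MP_5c10a1_co.V301
import Pool.Agent.Lib.MP_5c10a1_co.V211
import Pool.Agent.Lib.MP_5c10a1_co.VS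
import Pool.Agent.Lib.MP_5c10a1_co.Near
import Pool.Agent.Lib.MP_5c10a1_co.Cov
import Pool.Agent.Lib.MP_5c10a1_co.Tot
import Pool.Agent.Lib.MP_5c10a1_co.Orth
import Pool.Agent.Lib.MP_5c10a1_co.Hull
import Pool.Agent.Lib.MP_5c10a1_co.Cnt
import Pool.Agent.Lib.MP_5c10a1_co.Cap
import Pool.Agent.Lib.MP_5c10a1_co.Col
import Pool.Agent.Lib.MP_5c10a1_co.Lsc
import Pool.Agent.Lib.MP_5c10a1_co.Opt

/-!
# MP_5c10a1_co: an upper bound for the sausage catastrophe threshold in dimension 4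

There is an optimal packing of `327522` unit balls in `ℝ⁴`, no optimal packing of `327522` unit balls is a
sausage, and `m_4 ≤ 327522`. (Problem file: `m_4 ≤ 377000`.)
-/

set_option autoImplicit false

namespace Pool.Agent.Results.MP_5c10a1_co.Sausage4

open Pool.Agent.Ssg

theorem result :
    (∃ x : Fin 327522 → E, IsOptimal x) ∧
      (∀ x : Fin 327522 → E, IsOptimal x → ¬ IsSausage x) ∧
      {m : ℕ | 2 ≤ m ∧ ∃ x : Fin m → E, IsOptimal x ∧ ¬ IsSausage x}.Nonempty ∧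
      m4 ≤ 327522 := by
  have hVI := tVI tLin tPr tBox tSec
  have hTot : S_Tot := tTot (tCov tNear) tPerm hVI (tV400 tLin tPr tBox)
    (tV310 tLin tPr tBox tSec) (tV301 tLin tPr tBox tSec) (tV211 tLin tPr tThr)
    (tVS tLin tPr tThr)
  have hFin : S_Fin := tFin (tOpt tCap tLsc) tCap tCol tHull tOrth hTot tNum tSep tCnt
  obtain ⟨h1, h2, h3⟩ := hFin
  refine ⟨h1, h2, ?_, h3⟩
  obtain ⟨x, hx⟩ := h1
  exact ⟨327522, by norm_num, x, hx, h2 x hx⟩

end Pool.Agent.Results.MP_5c10a1_co.Sausage4
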